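import Pool.Agent.Work.MP_553296_lc.Transfer
import Pool.Agent.FTwo.Ext
import Pool.Agent.FTwo.Col

set_option autoImplicit false

namespace Pool.Agent.Results.MP_553296_lc.DeltaRegressive

open Cardinal Pool.Agent.Work.MP_553296_lc
open Pool.Agent.SigB (IsZFC)
open Pool.Agent.FTwo (NoFive)

universe u v

/-- (1) For every uncountable cardinal `κ`, every `Δ`-regressive colouring of `[2^κ]²` has a
monochromatic set with exactly four elements; and for every cardinal `θ` with `5 ≤ θ ≤ ℵ₁`, every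
`Δ`-regressive colouring of `[2^κ]²` has a monochromatic set of cardinality `θ` if and only if
`2 ^ ℵ₀ < 2 ^ κ`. (2) For every model of ZFC there is a model of ZFC in which there is a
`Δ`-regressive colouring of `[2^ω₁]²` such that no monochromatic set has five elements. -/
theorem result :
    (∀ κ : Cardinal.{u}, ℵ₀ < κ →
      (∀ c : Sym2 (Pt κ) → Set.Iio κ.ord, IsDeltaRegressive c →
        ∃ Y : Set (Pt κ), #Y = 4 ∧ IsMonochromatic c Y) ∧
      ∀ θ : Cardinal.{u + 1}, 5 ≤ θ → θ ≤ ℵ₁ →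
        ((∀ c : Sym2 (Pt κ) → Set.Iio κ.ord, IsDeltaRegressive c →
          ∃ Y : Set (Pt κ), #Y = θ ∧ IsMonochromatic c Y) ↔
        (2 : Cardinal.{u}) ^ (ℵ₀ : Cardinal.{u}) < 2 ^ κ)) ∧
    ∀ (M : Type v) [Membership M M] [IsZFC M],
      ∃ (N : Type v) (_ : Membership N N), IsZFC N ∧ NoFive N := by
  refine ⟨fun κ hκ => ⟨fun c hc => four hκ c hc, fun θ h5 hθ => ⟨fun H => ?_, fun h c hc => ?_⟩⟩,
    fun M _ _ => ?_⟩
  · by_contra hn
    obtain ⟨c, hc, hmono⟩ := negative hκ (not_lt.mp hn)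
    obtain ⟨Y, hY, hYm⟩ := H c hc
    have h1 := hmono Y hYm
    rw [hY] at h1
    have h2 : (5 : Cardinal.{u + 1}) ≤ 4 := h5.trans h1
    have h3 : ((5 : ℕ) : Cardinal.{u + 1}) ≤ ((4 : ℕ) : Cardinal.{u + 1}) := by exact_mod_cast h2
    have h4 : (5 : ℕ) ≤ 4 := by exact_mod_cast h3
    omega
  · obtain ⟨Y, hY, i, hi⟩ := pos_Pt hκ h c hc
    obtain ⟨Z, hZY, hZ⟩ := exists_subset_card hY hθ
    exact ⟨Z, hZ, i, fun x hx y hy hxy => hi x (hZY hx) y (hZY hy) hxy⟩
  · obtain ⟨N, iN, hZ, w, hw, hle⟩ := Pool.Agent.FTwo.exists_two M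
    exact ⟨N, iN, hZ, Pool.Agent.FTwo.noFive hw hle⟩

end Pool.Agent.Results.MP_553296_lc.DeltaRegressive
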